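import Mathlib

set_option autoImplicit false

/-!
# Graceful labellings of `B(n,r,m)`: definitions and basic facts

(The definitions and the edge count are those of the hand-in `LargeCliques`.)
-/

namespace Pool.Agent.Graceful

open Finset

/-- A finite graph `G` with `q` edges is graceful if there is an injective map `f` from the
vertices to `{0, …, q}` such that the values `|f u - f v|` at the edges `uv` are pairwise
distinct. -/
def IsGraceful {V : Type*} [Fintype V] (G : SimpleGraph V) : Prop :=
  ∃ f : V → ℕ, Function.Injective f ∧ (∀ v, f v ≤ Nat.card G.edgeSet) ∧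
    ∀ u v u' v' : V, G.Adj u v → G.Adj u' v' → Nat.dist (f u) (f v) = Nat.dist (f u') (f v') →
      s(u, v) = s(u', v')

/-- The graph `B(n,r,m)`: `m` copies of `K_n` with `r` common vertices, otherwise disjoint. The
common vertices are the `Sum.inl a`, the other vertices of the `j`-th copy the
`Sum.inr (j, x)`. -/
def B (n r m : ℕ) : SimpleGraph (Fin r ⊕ Fin m × Fin (n - r)) where
  Adj u v := u ≠ v ∧ ∀ j x j' x', u = Sum.inr (j, x) → v = Sum.inr (j', x') → j = j'
  symm := by
    constructor
    rintro u v ⟨h1, h2⟩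
    exact ⟨h1.symm, fun j x j' x' hu hv => (h2 j' x' j x hv hu).symm⟩
  loopless := ⟨fun u h => h.1 rfl⟩

open Classical in
/-- The quadratic form of the adjacency matrix of `B(n,r,m)`. -/
theorem quad (n r m : ℕ) (w : Fin r ⊕ Fin m × Fin (n - r) → ℝ) :
    ∑ u, ∑ v, (if (B n r m).Adj u v then w u * w v else 0) =
      ∑ j : Fin m, ((∑ a, w (Sum.inl a)) + ∑ x, w (Sum.inr (j, x))) ^ 2
        - ((m : ℝ) - 1) * (∑ a, w (Sum.inl a)) ^ 2 - ∑ u, w u ^ 2 := by
  have h1 : ∀ u v, (if (B n r m).Adj u v then w u * w v else 0) =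
      (if (∀ j x j' x', u = Sum.inr (j, x) → v = Sum.inr (j', x') → j = j') then w u * w v else 0)
        - (if u = v then w u * w v else 0) := by
    intro u v
    by_cases huv : u = v
    · subst huv
      have h2 : (∀ j x j' x', u = Sum.inr (j, x) → u = Sum.inr (j', x') → j = j') := by
        intro j x j' x' h3 h4
        rw [h3] at h4
        exact congrArg Prod.fst (Sum.inr_injective h4)
      rw [if_neg (SimpleGraph.irrefl _), if_pos h2, if_pos rfl]
      ring
    · simp only [B, ne_eq, huv, not_false_eq_true, true_and, if_false, sub_zero]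
  simp only [h1, Finset.sum_sub_distrib]
  have h3 : ∑ u, ∑ v, (if u = v then w u * w v else 0) = ∑ u, w u ^ 2 := by
    apply Finset.sum_congr rfl
    intro u _
    rw [Finset.sum_ite_eq]
    simp [sq]
  rw [h3]
  congr 1
  set W : ℝ := ∑ a, w (Sum.inl a) with hW
  have h4 : ∑ u, ∑ v, (if (∀ j x j' x', u = Sum.inr (j, x) → v = Sum.inr (j', x') → j = j')
      then w u * w v else 0) = W ^ 2 + 2 * W * (∑ j : Fin m, ∑ x, w (Sum.inr (j, x)))
        + ∑ j : Fin m, (∑ x, w (Sum.inr (j, x))) ^ 2 := by
    rw [Fintype.sum_sum_type]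
    have h5 : ∀ a : Fin r, ∑ v, (if (∀ j x j' x', (Sum.inl a : Fin r ⊕ Fin m × Fin (n - r)) =
        Sum.inr (j, x) → v = Sum.inr (j', x') → j = j') then w (Sum.inl a) * w v else 0)
        = w (Sum.inl a) * (W + ∑ j : Fin m, ∑ x, w (Sum.inr (j, x))) := by
      intro a
      simp only [reduceCtorEq, false_imp_iff, implies_true, if_true]
      rw [← Finset.mul_sum, Fintype.sum_sum_type, Fintype.sum_prod_type]
    have h6 : ∀ p : Fin m × Fin (n - r), ∑ v, (if (∀ j x j' x',
        (Sum.inr p : Fin r ⊕ Fin m × Fin (n - r)) = Sum.inr (j, x) → v = Sum.inr (j', x') → j = j')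
        then w (Sum.inr p) * w v else 0)
        = w (Sum.inr p) * (W + ∑ x, w (Sum.inr (p.1, x))) := by
      intro p
      rw [Fintype.sum_sum_type, mul_add]
      congr 1
      · simp only [reduceCtorEq, false_imp_iff, implies_true, if_true]
        rw [← Finset.mul_sum]
      · rw [Fintype.sum_prod_type, Finset.sum_eq_single p.1]
        · rw [Finset.mul_sum]
          apply Finset.sum_congr rfl
          intro x _
          rw [if_pos]
          intro j y j' y' h7 h8
          have h9 := Sum.inr_injective h7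
          have h10 := Sum.inr_injective h8
          rw [h9] at h10
          exact congrArg Prod.fst h10
        · intro j' _ hj'
          apply Finset.sum_eq_zero
          intro x _
          rw [if_neg]
          intro h7
          exact hj' (h7 p.1 p.2 j' x rfl rfl).symm
        · intro h
          exact absurd (Finset.mem_univ _) h
    rw [Finset.sum_congr rfl (fun a _ => h5 a), Finset.sum_congr rfl (fun p _ => h6 p),
      ← Finset.sum_mul, Fintype.sum_prod_type]
    have h7 : ∀ j : Fin m, ∑ x, w (Sum.inr (j, x)) * (W + ∑ y, w (Sum.inr (j, y)))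
        = W * (∑ x, w (Sum.inr (j, x))) + (∑ x, w (Sum.inr (j, x))) ^ 2 := by
      intro j
      rw [← Finset.sum_mul]
      ring
    simp only [h7, Finset.sum_add_distrib, ← Finset.mul_sum]
    ring
  rw [h4]
  have h8 : ∀ j : Fin m, (W + ∑ x, w (Sum.inr (j, x))) ^ 2 =
      W ^ 2 + 2 * W * (∑ x, w (Sum.inr (j, x))) + (∑ x, w (Sum.inr (j, x))) ^ 2 := by
    intro j; ring
  simp only [h8, Finset.sum_add_distrib, ← Finset.mul_sum, Finset.sum_const, Finset.card_univ,
    Fintype.card_fin, nsmul_eq_mul]
  ring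

open Classical in
/-- Twice the number of edges of `B(n,r,m)`. -/
theorem two_edges (n r m : ℕ) :
    2 * (Nat.card (B n r m).edgeSet : ℝ) = m * ((r : ℝ) + (n - r : ℕ)) ^ 2
      - ((m : ℝ) - 1) * r ^ 2 - (r + m * (n - r : ℕ)) := by
  have h1 := quad n r m (fun _ => 1)
  have h2 : ∑ u, ∑ v, (if (B n r m).Adj u v then (1:ℝ) * 1 else 0) =
      2 * (Nat.card (B n r m).edgeSet : ℝ) := by
    have h3 : ∀ u, ∑ v, (if (B n r m).Adj u v then (1:ℝ) * 1 else 0) = ((B n r m).degree u : ℝ) := by
      intro u
      rw [← SimpleGraph.card_neighborFinset_eq_degree, SimpleGraph.neighborFinset_eq_filter]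
      simp
    rw [Finset.sum_congr rfl (fun u _ => h3 u)]
    have h4 := (B n r m).sum_degrees_eq_twice_card_edges
    have h5 : (∑ u, ((B n r m).degree u : ℝ)) = ((∑ u, (B n r m).degree u : ℕ) : ℝ) := by
      push_cast; rfl
    rw [h5, h4, Nat.card_eq_fintype_card, ← SimpleGraph.edgeFinset_card]
    push_cast
    ring
  rw [h2] at h1
  rw [h1]
  simp


open Classical in
/-- If every `k` with `1 ≤ k ≤ q` is an edge value, then the edge values are distinct and are exactly
`1, …, q`. -/
theorem of_cover {V : Type*} [Fintype V] (G : SimpleGraph V) (f : V → ℕ)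
    (hcov : ∀ k, 1 ≤ k → k ≤ Nat.card G.edgeSet → ∃ u v, G.Adj u v ∧ Nat.dist (f u) (f v) = k) :
    (∀ u v, G.Adj u v → 1 ≤ Nat.dist (f u) (f v) ∧ Nat.dist (f u) (f v) ≤ Nat.card G.edgeSet) ∧
    ∀ u v u' v' : V, G.Adj u v → G.Adj u' v' → Nat.dist (f u) (f v) = Nat.dist (f u') (f v') →
      s(u, v) = s(u', v') := by
  set q := Nat.card G.edgeSet with hq
  let lab : Sym2 V → ℕ := Sym2.lift ⟨fun u v => Nat.dist (f u) (f v), fun u v => Nat.dist_comm _ _⟩
  have hlab : ∀ u v, lab s(u, v) = Nat.dist (f u) (f v) := fun u v => rfl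
  have hcard : G.edgeFinset.card = q := by
    rw [hq, Nat.card_eq_fintype_card, ← SimpleGraph.edgeFinset_card]
  have hsub : Finset.Icc 1 q ⊆ G.edgeFinset.image lab := by
    intro k hk
    rw [Finset.mem_Icc] at hk
    obtain ⟨u, v, huv, hd⟩ := hcov k hk.1 hk.2
    rw [Finset.mem_image]
    exact ⟨s(u, v), by rw [SimpleGraph.mem_edgeFinset, SimpleGraph.mem_edgeSet]; exact huv, hd⟩
  have hle1 : (G.edgeFinset.image lab).card ≤ q := hcard ▸ Finset.card_image_le
  have hle2 : q ≤ (G.edgeFinset.image lab).card := by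
    have := Finset.card_le_card hsub
    rwa [Nat.card_Icc, Nat.add_sub_cancel] at this
  have himg : G.edgeFinset.image lab = Finset.Icc 1 q := by
    symm
    apply Finset.eq_of_subset_of_card_le hsub
    rw [Nat.card_Icc, Nat.add_sub_cancel]
    exact hle1
  have hinj : Set.InjOn lab (G.edgeFinset : Set (Sym2 V)) := by
    rw [← Finset.card_image_iff, hcard]
    exact le_antisymm hle1 hle2
  constructor
  · intro u v huv
    have h1 : lab s(u, v) ∈ G.edgeFinset.image lab := by
      apply Finset.mem_image_of_mem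
      rw [SimpleGraph.mem_edgeFinset, SimpleGraph.mem_edgeSet]
      exact huv
    rw [himg, Finset.mem_Icc] at h1
    exact h1
  · intro u v u' v' huv huv' hd
    apply hinj
    · rw [SimpleGraph.coe_edgeFinset, SimpleGraph.mem_edgeSet]; exact huv
    · rw [SimpleGraph.coe_edgeFinset, SimpleGraph.mem_edgeSet]; exact huv'
    · exact hd

/-- Criterion for `B(n,r,m)`. -/
theorem graceful_of_cover (n r m : ℕ) (hr : 1 ≤ r) (f : Fin r ⊕ Fin m × Fin (n - r) → ℕ)
    (hle : ∀ v, f v ≤ Nat.card (B n r m).edgeSet)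
    (hcov : ∀ k, 1 ≤ k → k ≤ Nat.card (B n r m).edgeSet →
      ∃ u v, (B n r m).Adj u v ∧ Nat.dist (f u) (f v) = k) : IsGraceful (B n r m) := by
  obtain ⟨h1, h2⟩ := of_cover (B n r m) f hcov
  refine ⟨f, ?_, hle, h2⟩
  intro u v huv
  by_contra hne
  by_cases ha : (B n r m).Adj u v
  · have := (h1 u v ha).1
    rw [huv, Nat.dist_self] at this
    omega
  · -- both are non-common vertices
    have hc : ∀ (c : Fin r) (p : Fin m × Fin (n - r)),
        (B n r m).Adj (Sum.inl c) (Sum.inr p) :=
      fun c p => ⟨by simp, fun j x j' x' h => by simp at h⟩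
    have hcc : ∀ (c c' : Fin r), c ≠ c' → (B n r m).Adj (Sum.inl c) (Sum.inl c') :=
      fun c c' h => ⟨by simpa using h, fun j x j' x' h => by simp at h⟩
    rcases u with c | p
    · rcases v with c' | p'
      · exact ha (hcc c c' (fun h => hne (by rw [h])))
      · exact ha (hc c p')
    · rcases v with c' | p'
      · exact ha (hc c' p).symm
      · have h3 := h2 (Sum.inl ⟨0, hr⟩) (Sum.inr p) (Sum.inl ⟨0, hr⟩) (Sum.inr p') (hc _ p) (hc _ p')
          (by rw [huv])
        rw [Sym2.eq_iff] at h3
        rcases h3 with ⟨_, h3⟩ | ⟨h3, _⟩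
        · exact hne h3
        · simp at h3

end Pool.Agent.Graceful
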