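import Pool.Agent.Graceful.Basic

set_option autoImplicit false

/-! Rosa's parity condition: a graceful graph with all degrees even has `0` or `3` modulo `4`
edges. -/

namespace Pool.Agent.Graceful

open Finset

open Classical in
theorem sum_edge_add {V : Type*} [Fintype V] (G : SimpleGraph V) (f : V → ℕ) :
    ∑ e ∈ G.edgeFinset, (∑ w, if w ∈ e then f w else 0) = ∑ w, G.degree w * f w := by
  rw [Finset.sum_comm]
  apply Finset.sum_congr rfl
  intro w _
  rw [← Finset.sum_filter, Finset.sum_const, smul_eq_mul, ← SimpleGraph.card_incidenceFinset_eq_degree,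
    SimpleGraph.incidenceFinset_eq_filter]

theorem sum_Icc_two (q : ℕ) : (∑ k ∈ Finset.Icc 1 q, k) * 2 = q * (q + 1) := by
  induction q with
  | zero => simp
  | succ n ih =>
    rw [Finset.sum_Icc_succ_top (by omega), add_mul, ih]
    ring

open Classical in
theorem parity {V : Type*} [Fintype V] (G : SimpleGraph V) (hG : IsGraceful G)
    (hdeg : ∀ v, Even (G.degree v)) :
    Nat.card G.edgeSet % 4 = 0 ∨ Nat.card G.edgeSet % 4 = 3 := by
  obtain ⟨f, hf, hle, hd⟩ := hG
  set q := Nat.card G.edgeSet with hq
  let lab : Sym2 V → ℕ := Sym2.lift ⟨fun u v => Nat.dist (f u) (f v), fun u v => Nat.dist_comm _ _⟩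
  have hlab : ∀ u v, lab s(u, v) = Nat.dist (f u) (f v) := fun u v => rfl
  have hcard : G.edgeFinset.card = q := by
    rw [hq, Nat.card_eq_fintype_card, ← SimpleGraph.edgeFinset_card]
  have hinj : Set.InjOn lab (G.edgeFinset : Set (Sym2 V)) := by
    intro e he e' he' h
    induction e using Sym2.ind with
    | _ u v =>
      induction e' using Sym2.ind with
      | _ u' v' =>
        rw [SimpleGraph.coe_edgeFinset, SimpleGraph.mem_edgeSet] at he he'
        exact hd u v u' v' he he' h
  have himg : G.edgeFinset.image lab = Finset.Icc 1 q := by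
    apply Finset.eq_of_subset_of_card_le
    · intro k hk
      rw [Finset.mem_image] at hk
      obtain ⟨e, he, rfl⟩ := hk
      induction e using Sym2.ind with
      | _ u v =>
        rw [SimpleGraph.mem_edgeFinset, SimpleGraph.mem_edgeSet] at he
        have hne : f u ≠ f v := fun h => he.ne (hf h)
        have h1 := hle u
        have h2 := hle v
        rw [hlab, Finset.mem_Icc, Nat.dist]
        omega
    · rw [Finset.card_image_of_injOn hinj, hcard, Nat.card_Icc, Nat.add_sub_cancel]
  have hsum : ∑ e ∈ G.edgeFinset, lab e = ∑ k ∈ Finset.Icc 1 q, k := by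
    rw [← himg, Finset.sum_image hinj]
  have hmod : ∀ e ∈ G.edgeFinset, lab e ≡ ∑ w, (if w ∈ e then f w else 0) [MOD 2] := by
    intro e he
    induction e using Sym2.ind with
    | _ u v =>
      rw [SimpleGraph.mem_edgeFinset, SimpleGraph.mem_edgeSet] at he
      have h1 : ∑ w, (if w ∈ s(u, v) then f w else 0) = f u + f v := by
        rw [← Finset.sum_filter]
        have h2 : Finset.univ.filter (fun w => w ∈ s(u, v)) = {u, v} := by
          ext w
          simp
        rw [h2, Finset.sum_pair he.ne]
      rw [h1, hlab, Nat.ModEq, Nat.dist]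
      omega
  have hmod2 : ∑ e ∈ G.edgeFinset, lab e ≡ 0 [MOD 2] := by
    have h1 : ∑ e ∈ G.edgeFinset, lab e ≡
        ∑ e ∈ G.edgeFinset, (∑ w, if w ∈ e then f w else 0) [MOD 2] :=
      Nat.ModEq.sum hmod
    refine h1.trans ?_
    rw [sum_edge_add]
    rw [Nat.modEq_zero_iff_dvd]
    exact Finset.dvd_sum fun w _ => Dvd.dvd.mul_right (hdeg w).two_dvd _
  rw [hsum] at hmod2
  have h3 := sum_Icc_two q
  rw [Nat.ModEq, Nat.zero_mod] at hmod2
  have h5 : 4 ∣ q * (q + 1) := by omega
  have h6 : (q % 4) * ((q + 1) % 4) % 4 = 0 := by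
    rw [← Nat.mul_mod]
    exact Nat.mod_eq_zero_of_dvd h5
  have h7 : q % 4 < 4 := Nat.mod_lt _ (by norm_num)
  have h8 : (q + 1) % 4 = (q % 4 + 1) % 4 := by omega
  rw [h8] at h6
  interval_cases hq4 : q % 4 <;> simp_all

open Classical in
theorem degree_inl (n r m : ℕ) (a : Fin r) :
    (B n r m).degree (Sum.inl a) = r + m * (n - r) - 1 := by
  have h1 : (B n r m).neighborFinset (Sum.inl a) = Finset.univ.erase (Sum.inl a) := by
    ext v
    rw [SimpleGraph.mem_neighborFinset, Finset.mem_erase]
    constructor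
    · intro h
      exact ⟨h.ne.symm, Finset.mem_univ _⟩
    · intro h
      exact ⟨h.1.symm, fun j x j' x' h2 => by simp at h2⟩
  rw [← SimpleGraph.card_neighborFinset_eq_degree, h1, Finset.card_erase_of_mem (Finset.mem_univ _)]
  simp

open Classical in
theorem degree_inr (n r m : ℕ) (hn : r ≤ n) (j : Fin m) (x : Fin (n - r)) :
    (B n r m).degree (Sum.inr (j, x)) = n - 1 := by
  have h1 : (B n r m).neighborFinset (Sum.inr (j, x)) =
      ((Finset.univ : Finset (Fin r ⊕ Fin (n - r))).image
        (Sum.map id (fun y => (j, y)))).erase (Sum.inr (j, x)) := by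
    ext v
    rw [SimpleGraph.mem_neighborFinset, Finset.mem_erase, Finset.mem_image]
    constructor
    · intro h
      refine ⟨h.ne.symm, ?_⟩
      rcases v with a | ⟨j', y⟩
      · exact ⟨Sum.inl a, Finset.mem_univ _, rfl⟩
      · have h2 := h.2 j x j' y rfl rfl
        subst h2
        exact ⟨Sum.inr y, Finset.mem_univ _, rfl⟩
    · rintro ⟨h, w, -, rfl⟩
      refine ⟨h.symm, ?_⟩
      intro j1 x1 j2 x2 h3 h4
      rcases w with a | y
      · simp at h4
      · have h5 := congrArg Prod.fst (Sum.inr_injective h3)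
        have h6 := congrArg Prod.fst (Sum.inr_injective h4)
        exact h5.symm.trans h6
  rw [← SimpleGraph.card_neighborFinset_eq_degree, h1, Finset.card_erase_of_mem,
    Finset.card_image_of_injective]
  · rw [Finset.card_univ, Fintype.card_sum, Fintype.card_fin, Fintype.card_fin]
    omega
  · intro u v h
    rcases u with u | u <;> rcases v with v | v <;> simp at h ⊢ <;> exact h
  · rw [Finset.mem_image]
    exact ⟨Sum.inr x, Finset.mem_univ _, rfl⟩

/-- Rosa's condition for `B(n,r,m)`. -/
theorem parity_B (n r m q : ℕ) (hn : r ≤ n) (hq : Nat.card (B n r m).edgeSet = q)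
    (hodd : n % 2 = 1) (hev : (r + m * (n - r)) % 2 = 1) (hG : IsGraceful (B n r m)) :
    q % 4 = 0 ∨ q % 4 = 3 := by
  classical
  rw [← hq]
  apply parity _ hG
  intro v
  rcases v with a | ⟨j, x⟩
  · have := degree_inl n r m a
    rw [Nat.even_iff]
    convert (show (r + m * (n - r) - 1) % 2 = 0 by omega) using 2
  · have := degree_inr n r m hn j x
    rw [Nat.even_iff]
    convert (show (n - 1) % 2 = 0 by omega) using 2

end Pool.Agent.Graceful
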