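import Pool.Agent.Graceful.Basic

set_option autoImplicit false

/-!
# Exhaustive search for perfect difference families, with a proof of completeness
-/

namespace Pool.Agent.Graceful

/-- Prefix sums of a list of gaps. -/
def pre : ℕ → List ℕ → List ℕ
  | _, [] => []
  | s, a :: l => (s + a) :: pre (s + a) l

/-- All the differences of the block with gaps `l`: sums of consecutive gaps. -/
def diffs : List ℕ → List ℕ
  | [] => []
  | a :: l => pre 0 (a :: l) ++ diffs l

/-- The largest `n ≤ N` with `testBit u n = false` (`0` if there is none). -/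
def top (u : ℕ) : ℕ → ℕ
  | 0 => 0
  | n + 1 => if u.testBit (n + 1) then top u n else n + 1

/-- Insert the elements of a list into a bit mask; `none` if an element is repeated. -/
def addAll : ℕ → List ℕ → Option ℕ
  | u, [] => some u
  | u, d :: l => if u.testBit d then none else addAll (u ||| (1 <<< d)) l

/-- The compositions of `z` into `p` positive parts. -/
def comps : ℕ → ℕ → List (List ℕ)
  | 0, z => if z = 0 then [[]] else []
  | p + 1, z => (List.range z).flatMap fun a => (comps p (z - (a + 1))).map fun l => (a + 1) :: l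

/-- Search for `k` further blocks with `p` gaps. -/
def search (N p : ℕ) : ℕ → ℕ → Bool
  | 0, _ => true
  | k + 1, u => (comps p (top u N)).any fun b =>
      match addAll u (diffs b) with
      | none => false
      | some u' => search N p k u'

theorem top_spec (u : ℕ) (N : ℕ) (n : ℕ) (h1 : 1 ≤ n) (h2 : n ≤ N) (h3 : u.testBit n = false) :
    n ≤ top u N ∧ top u N ≤ N ∧ u.testBit (top u N) = false := by
  induction N with
  | zero => omega
  | succ N ih =>
    unfold top
    split_ifs with h
    · have h4 : n ≠ N + 1 := by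
        rintro rfl
        rw [h3] at h
        exact absurd h (by decide)
      have := ih (by omega)
      exact ⟨this.1, by omega, this.2.2⟩
    · refine ⟨h2, le_refl _, ?_⟩
      simpa using h

theorem mem_comps (b : List ℕ) (hb : ∀ g ∈ b, 1 ≤ g) : b ∈ comps b.length b.sum := by
  induction b with
  | nil => simp [comps]
  | cons a l ih =>
    have h1 := hb a List.mem_cons_self
    have h2 := ih fun g hg => hb g (List.mem_cons_of_mem _ hg)
    simp only [List.length_cons, List.sum_cons, comps, List.mem_flatMap, List.mem_range,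
      List.mem_map]
    refine ⟨a - 1, by omega, l, ?_, ?_⟩
    · have : a + l.sum - (a - 1 + 1) = l.sum := by omega
      rw [this]
      exact h2
    · rw [Nat.sub_add_cancel h1]

theorem addAll_spec (l : List ℕ) : ∀ (u : ℕ) (U : List ℕ), (∀ n, u.testBit n = true ↔ n ∈ U) →
    (l ++ U).Nodup → ∃ u', addAll u l = some u' ∧ ∀ n, u'.testBit n = true ↔ n ∈ l ++ U := by
  induction l with
  | nil => intro u U hu _; exact ⟨u, rfl, by simpa using hu⟩
  | cons d l ih =>
    intro u U hu hn
    have h1 : u.testBit d = false := by
      by_contra h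
      have h2 : d ∈ U := (hu d).mp (by simpa using h)
      rw [List.cons_append, List.nodup_cons] at hn
      exact hn.1 (List.mem_append_right _ h2)
    have h2 : ∀ n, (u ||| (1 <<< d)).testBit n = true ↔ n ∈ d :: U := by
      intro n
      rw [Nat.testBit_or, Bool.or_eq_true, hu, List.mem_cons, Nat.one_shiftLeft,
        Nat.testBit_two_pow]
      simp only [decide_eq_true_eq]
      constructor
      · rintro (h | h)
        · exact Or.inr h
        · exact Or.inl h.symm
      · rintro (h | h)
        · exact Or.inr h.symm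
        · exact Or.inl h
    have hp : (l ++ d :: U).Perm (d :: l ++ U) := List.perm_middle
    obtain ⟨u', h3, h4⟩ := ih _ (d :: U) h2 (hp.nodup_iff.mpr hn)
    refine ⟨u', ?_, fun n => ?_⟩
    · rw [addAll, h1]
      simpa using h3
    · rw [h4 n]
      exact hp.mem_iff

/-- every element of `diffs b` is at most the sum -/
theorem pre_le (b : List ℕ) : ∀ (s : ℕ), ∀ n ∈ pre s b, n ≤ s + b.sum := by
  induction b with
  | nil => intro s n hn; simp [pre] at hn
  | cons a l ih =>
    intro s n hn
    simp only [pre, List.mem_cons] at hn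
    rw [List.sum_cons]
    rcases hn with rfl | hn
    · omega
    · have := ih _ n hn
      omega

theorem diffs_le (b : List ℕ) : ∀ n ∈ diffs b, n ≤ b.sum := by
  induction b with
  | nil => intro n hn; simp [diffs] at hn
  | cons a l ih =>
    intro n hn
    rw [diffs, List.mem_append] at hn
    rcases hn with hn | hn
    · have := pre_le _ _ n hn
      omega
    · have := ih n hn
      rw [List.sum_cons]
      omega

theorem sum_mem_pre (a : ℕ) (l : List ℕ) : ∀ s : ℕ, s + (a :: l).sum ∈ pre s (a :: l) := by
  induction l generalizing a with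
  | nil => intro s; simp [pre]
  | cons b l ih =>
    intro s
    rw [pre, List.mem_cons]
    right
    have := ih b (s + a)
    rw [List.sum_cons, ← add_assoc]
    exact this

theorem sum_mem_diffs (a : ℕ) (l : List ℕ) : (a :: l).sum ∈ diffs (a :: l) := by
  rw [diffs, List.mem_append]
  left
  have := sum_mem_pre a l 0
  rwa [zero_add] at this

/-- Completeness of the search. -/
theorem search_complete (N p : ℕ) : ∀ (k : ℕ) (L : List (List ℕ)) (u : ℕ) (U : List ℕ),
    L.length = k → (∀ b ∈ L, b.length = p + 1 ∧ ∀ g ∈ b, 1 ≤ g) →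
    (∀ n, u.testBit n = true ↔ n ∈ U) → (L.flatMap diffs ++ U).Nodup →
    (∀ n, 1 ≤ n → n ≤ N → n ∈ L.flatMap diffs ++ U) → (∀ n ∈ L.flatMap diffs, n ≤ N) →
    search N (p + 1) k u = true := by
  intro k
  induction k with
  | zero => intros; rfl
  | succ k ih =>
    intro L u U hL hb hu hn hcov hle
    -- there is an uncovered number
    obtain ⟨b0, L0, rfl⟩ : ∃ b0 L0, L = b0 :: L0 := by
      cases L with
      | nil => simp at hL
      | cons b l => exact ⟨b, l, rfl⟩
    have hpos : ∀ b : List ℕ, b.length = p + 1 ∧ (∀ g ∈ b, 1 ≤ g) →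
        1 ≤ b.sum ∧ b.sum ∈ diffs b := by
      intro b hb
      cases b with
      | nil => simp at hb
      | cons a l =>
        refine ⟨?_, sum_mem_diffs a l⟩
        have := hb.2 a List.mem_cons_self
        rw [List.sum_cons]
        omega
    have hnot : ∀ n ∈ (b0 :: L0).flatMap diffs, u.testBit n = false := by
      intro n hn'
      by_contra h
      have h2 : n ∈ U := (hu n).mp (by simpa using h)
      exact (List.nodup_append.mp hn).2.2 n hn' n h2 rfl
    have hmem0 : b0.sum ∈ (b0 :: L0).flatMap diffs :=
      List.mem_flatMap.mpr ⟨b0, List.mem_cons_self, (hpos b0 (hb _ List.mem_cons_self)).2⟩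
    obtain ⟨ht1, ht2, ht3⟩ := top_spec u N b0.sum (hpos b0 (hb _ List.mem_cons_self)).1
      (hle _ hmem0) (hnot _ hmem0)
    have ht4 : 1 ≤ top u N := le_trans (hpos b0 (hb _ List.mem_cons_self)).1 ht1
    have ht5 : top u N ∈ (b0 :: L0).flatMap diffs := by
      rcases List.mem_append.mp (hcov _ ht4 ht2) with h | h
      · exact h
      · have := (hu _).mpr h
        rw [ht3] at this
        exact absurd this (by decide)
    obtain ⟨b, hbL, hbd⟩ := List.mem_flatMap.mp ht5
    have hbs : b.sum = top u N := by
      apply le_antisymm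
      · have hm : b.sum ∈ (b0 :: L0).flatMap diffs :=
          List.mem_flatMap.mpr ⟨b, hbL, (hpos b (hb _ hbL)).2⟩
        exact (top_spec u N b.sum (hpos b (hb _ hbL)).1 (hle _ hm) (hnot _ hm)).1
      · exact diffs_le b _ hbd
    have hperm : (b0 :: L0).Perm (b :: (b0 :: L0).erase b) := List.perm_cons_erase hbL
    set L' := (b0 :: L0).erase b with hL'
    have hfp : ((b0 :: L0).flatMap diffs).Perm (diffs b ++ L'.flatMap diffs) := by
      have := hperm.flatMap_right diffs
      rwa [List.flatMap_cons] at this
    have hp2 : ((b0 :: L0).flatMap diffs ++ U).Perm (L'.flatMap diffs ++ (diffs b ++ U)) := by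
      refine (hfp.append_right U).trans ?_
      rw [← List.append_assoc]
      exact List.perm_append_comm.append_right U
    have hn2 : (L'.flatMap diffs ++ (diffs b ++ U)).Nodup := hp2.nodup_iff.mp hn
    obtain ⟨u', h1, h2⟩ := addAll_spec (diffs b) u U hu (List.nodup_append.mp hn2).2.1
    have h3 := ih L' u' (diffs b ++ U) (by
        rw [hL', List.length_erase_of_mem hbL, hL]; rfl)
      (fun c hc => hb c (List.mem_of_mem_erase hc)) h2 hn2
      (fun n hn1 hnN => hp2.mem_iff.mp (hcov n hn1 hnN))
      (fun n hn' => hle n (hfp.mem_iff.mpr (List.mem_append_right _ hn')))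
    rw [search, List.any_eq_true]
    refine ⟨b, ?_, ?_⟩
    · have := mem_comps b (hb b hbL).2
      rwa [(hb b hbL).1, hbs] at this
    · rw [h1]
      exact h3

/-! ### From sorted labels to gaps -/

/-- Consecutive gaps. -/
def gaps : List ℕ → List ℕ
  | [] => []
  | [_] => []
  | x :: y :: l => (y - x) :: gaps (y :: l)

theorem gaps_length (l : List ℕ) : (gaps l).length = l.length - 1 := by
  induction l with
  | nil => rfl
  | cons x l ih =>
    cases l with
    | nil => rfl
    | cons y l => simp only [gaps, List.length_cons, ih]; simp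

theorem gaps_pos (l : List ℕ) (h : l.Pairwise (· < ·)) : ∀ g ∈ gaps l, 1 ≤ g := by
  induction l with
  | nil => intro g hg; simp [gaps] at hg
  | cons x l ih =>
    cases l with
    | nil => intro g hg; simp [gaps] at hg
    | cons y l =>
      intro g hg
      rw [List.pairwise_cons] at h
      simp only [gaps, List.mem_cons] at hg
      rcases hg with rfl | hg
      · have := h.1 y List.mem_cons_self
        omega
      · exact ih h.2 g hg

theorem pre_gaps (l : List ℕ) : ∀ (x s : ℕ), (x :: l).Pairwise (· < ·) →
    ∀ y ∈ l, s + (y - x) ∈ pre s (gaps (x :: l)) := by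
  induction l with
  | nil => intro x s _ y hy; simp at hy
  | cons z l ih =>
    intro x s h y hy
    rw [List.pairwise_cons] at h
    have hxz := h.1 z List.mem_cons_self
    rw [gaps, pre, List.mem_cons]
    rcases List.mem_cons.mp hy with rfl | hy
    · left; rfl
    · right
      have h2 := ih z (s + (z - x)) h.2 y hy
      have hzy : z < y := (List.pairwise_cons.mp h.2).1 y hy
      have : s + (z - x) + (y - z) = s + (y - x) := by omega
      rwa [this] at h2

theorem mem_diffs_gaps (l : List ℕ) (h : l.Pairwise (· < ·)) : ∀ x ∈ l, ∀ y ∈ l, x < y →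
    y - x ∈ diffs (gaps l) := by
  induction l with
  | nil => intro x hx; simp at hx
  | cons a l ih =>
    intro x hx y hy hxy
    cases l with
    | nil =>
      simp only [List.mem_singleton] at hx hy
      omega
    | cons b l =>
      have hp := List.pairwise_cons.mp h
      rw [gaps, diffs, List.mem_append]
      rcases List.mem_cons.mp hx with rfl | hx'
      · have hy' : y ∈ b :: l := by
          rcases List.mem_cons.mp hy with h3 | h3
          · omega
          · exact h3
        left
        have := pre_gaps (b :: l) x 0 h y hy'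
        rwa [zero_add, gaps] at this
      · have hy' : y ∈ b :: l := by
          rcases List.mem_cons.mp hy with h3 | h3
          · have := hp.1 x hx'
            omega
          · exact h3
        right
        exact ih hp.2 x hx' y hy' hxy

theorem diffs_length (l : List ℕ) : 2 * (diffs l).length = l.length * (l.length + 1) := by
  have hpre : ∀ (l : List ℕ) (s : ℕ), (pre s l).length = l.length := by
    intro l
    induction l with
    | nil => intro s; rfl
    | cons a l ih => intro s; simp [pre, ih]
  induction l with
  | nil => rfl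
  | cons a l ih =>
    rw [diffs, List.length_append, hpre, mul_add, ih, List.length_cons]
    ring

open Classical in
/-- All the edge values of a graceful graph occur. -/
theorem surj_of_graceful {V : Type*} [Fintype V] (G : SimpleGraph V) (f : V → ℕ)
    (hinj : Function.Injective f) (hle : ∀ v, f v ≤ Nat.card G.edgeSet)
    (hd : ∀ u v u' v' : V, G.Adj u v → G.Adj u' v' →
      Nat.dist (f u) (f v) = Nat.dist (f u') (f v') → s(u, v) = s(u', v')) (k : ℕ)
    (h1 : 1 ≤ k) (h2 : k ≤ Nat.card G.edgeSet) : ∃ u v, G.Adj u v ∧ Nat.dist (f u) (f v) = k := by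
  set q := Nat.card G.edgeSet with hq
  let lab : Sym2 V → ℕ := Sym2.lift ⟨fun u v => Nat.dist (f u) (f v), fun u v => Nat.dist_comm _ _⟩
  have hlab : ∀ u v, lab s(u, v) = Nat.dist (f u) (f v) := fun u v => rfl
  have hinjOn : Set.InjOn lab (G.edgeFinset : Set (Sym2 V)) := by
    intro e he e' he' hee
    induction e with
    | _ u v =>
      induction e' with
      | _ u' v' =>
        rw [SimpleGraph.coe_edgeFinset, SimpleGraph.mem_edgeSet] at he he'
        exact hd u v u' v' he he' hee
  have hcard : G.edgeFinset.card = q := by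
    rw [hq, Nat.card_eq_fintype_card, ← SimpleGraph.edgeFinset_card]
  have himg : G.edgeFinset.image lab = Finset.Icc 1 q := by
    apply Finset.eq_of_subset_of_card_le
    · intro k hk
      rw [Finset.mem_image] at hk
      obtain ⟨e, he, rfl⟩ := hk
      induction e with
      | _ u v =>
        rw [SimpleGraph.mem_edgeFinset, SimpleGraph.mem_edgeSet] at he
        have h1 := hle u
        have h2 := hle v
        have h3 : f u ≠ f v := fun h => G.ne_of_adj he (hinj h)
        rw [hlab, Finset.mem_Icc]
        unfold Nat.dist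
        omega
    · rw [Finset.card_image_of_injOn hinjOn, hcard, Nat.card_Icc]
      omega
  have hk : k ∈ G.edgeFinset.image lab := by
    rw [himg, Finset.mem_Icc]
    exact ⟨h1, h2⟩
  rw [Finset.mem_image] at hk
  obtain ⟨e, he, hek⟩ := hk
  induction e with
  | _ u v =>
    rw [SimpleGraph.mem_edgeFinset, SimpleGraph.mem_edgeSet] at he
    exact ⟨u, v, he, hek⟩

theorem nodup_of_cover (l : List ℕ) (h : ∀ k, 1 ≤ k → k ≤ l.length → k ∈ l) :
    l.Nodup ∧ ∀ n ∈ l, n ≤ l.length := by
  have hsub : Finset.Icc 1 l.length ⊆ l.toFinset := by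
    intro k hk
    rw [Finset.mem_Icc] at hk
    rw [List.mem_toFinset]
    exact h k hk.1 hk.2
  have hc := Finset.card_le_card hsub
  rw [Nat.card_Icc, Nat.add_sub_cancel] at hc
  have hc2 : l.toFinset.card ≤ l.length := List.toFinset_card_le l
  refine ⟨?_, ?_⟩
  · have h3 : l.toFinset.card = l.length := le_antisymm hc2 hc
    rw [List.card_toFinset] at h3
    have h4 : l.dedup = l := (List.dedup_sublist l).eq_of_length h3
    rw [← h4]
    exact List.nodup_dedup l
  · intro n hn
    have h3 : Finset.Icc 1 l.length = l.toFinset :=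
      Finset.eq_of_subset_of_card_le hsub (by rw [Nat.card_Icc, Nat.add_sub_cancel]; exact hc2)
    have h4 : n ∈ Finset.Icc 1 l.length := by
      rw [h3, List.mem_toFinset]; exact hn
    exact (Finset.mem_Icc.mp h4).2

/-- A graceful `K_(p+2)^(m)` gives a perfect difference family. -/
theorem exists_blocks (p m : ℕ) (hG : IsGraceful (B (p + 2) 1 m)) :
    ∃ L : List (List ℕ), L.length = m ∧ (∀ b ∈ L, b.length = p + 1 ∧ ∀ g ∈ b, 1 ≤ g) ∧
      (L.flatMap diffs).Nodup ∧ 2 * (L.flatMap diffs).length = m * ((p + 1) * (p + 2)) ∧
      (∀ n, 1 ≤ n → n ≤ (L.flatMap diffs).length → n ∈ L.flatMap diffs) ∧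
      ∀ n ∈ L.flatMap diffs, n ≤ (L.flatMap diffs).length := by
  classical
  obtain ⟨f, hinj, hle, hd⟩ := hG
  -- the labels of the copies
  let lj : Fin m → Finset ℕ := fun j =>
    insert (f (Sum.inl 0)) (Finset.univ.image fun x : Fin (p + 2 - 1) => f (Sum.inr (j, x)))
  have hlj : ∀ j, (lj j).card = p + 2 := by
    intro j
    rw [Finset.card_insert_of_notMem, Finset.card_image_of_injective]
    · simp
    · intro x y hxy
      have := hinj hxy
      simpa using this
    · intro h
      rw [Finset.mem_image] at h
      obtain ⟨x, _, hx⟩ := h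
      have := hinj hx
      simp at this
  let L : List (List ℕ) := (List.finRange m).map fun j => gaps ((lj j).sort (· ≤ ·))
  have hsort : ∀ j, ((lj j).sort (· ≤ ·)).Pairwise (· < ·) := fun j =>
    (Finset.sortedLT_sort _).pairwise
  have hL1 : ∀ b ∈ L, b.length = p + 1 ∧ ∀ g ∈ b, 1 ≤ g := by
    intro b hb
    obtain ⟨j, _, rfl⟩ := List.mem_map.mp hb
    refine ⟨?_, gaps_pos _ (hsort j)⟩
    rw [gaps_length, Finset.length_sort, hlj]
    rfl
  have hlen : 2 * (L.flatMap diffs).length = m * ((p + 1) * (p + 2)) := by
    have h1 : ∀ (L : List (List ℕ)), (∀ b ∈ L, b.length = p + 1) →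
        2 * (L.flatMap diffs).length = L.length * ((p + 1) * (p + 2)) := by
      intro L
      induction L with
      | nil => intro _; simp
      | cons b L ih =>
        intro hb
        rw [List.flatMap_cons, List.length_append, mul_add, ih fun c hc => hb c
          (List.mem_cons_of_mem _ hc), diffs_length, hb b List.mem_cons_self, List.length_cons]
        ring
    rw [h1 L fun b hb => (hL1 b hb).1]
    simp [L]
  have hq : (L.flatMap diffs).length = Nat.card (B (p + 2) 1 m).edgeSet := by
    have h1 := two_edges (p + 2) 1 m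
    have h2 : ((1 : ℕ) : ℝ) + ((p + 2 - 1 : ℕ) : ℝ) = p + 2 := by
      have : p + 2 - 1 = p + 1 := rfl
      rw [this]; push_cast; ring
    have h3 : ((p + 2 - 1 : ℕ) : ℝ) = p + 1 := by
      have : p + 2 - 1 = p + 1 := rfl
      rw [this]; push_cast; ring
    rw [h2, h3] at h1
    have h4 : (2 * (Nat.card (B (p + 2) 1 m).edgeSet : ℝ)) = ((m * ((p + 1) * (p + 2)) : ℕ) : ℝ) := by
      rw [h1]; push_cast; ring
    have h5 : 2 * Nat.card (B (p + 2) 1 m).edgeSet = m * ((p + 1) * (p + 2)) := by
      exact_mod_cast h4
    omega
  have hcov : ∀ k, 1 ≤ k → k ≤ (L.flatMap diffs).length → k ∈ L.flatMap diffs := by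
    intro k hk1 hk2
    rw [hq] at hk2
    obtain ⟨u, v, huv, hk⟩ := surj_of_graceful _ f hinj hle hd k hk1 hk2
    -- both ends belong to one copy
    have hcopy : ∃ j, f u ∈ lj j ∧ f v ∈ lj j := by
      rcases u with c | ⟨j, x⟩
      · rcases v with c' | ⟨j, x⟩
        · exact absurd (Subsingleton.elim c c') (fun h => huv.1 (by rw [h]))
        · refine ⟨j, ?_, ?_⟩
          · rw [Subsingleton.elim c 0]; exact Finset.mem_insert_self _ _
          · exact Finset.mem_insert_of_mem (Finset.mem_image_of_mem _ (Finset.mem_univ x))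
      · rcases v with c' | ⟨j', x'⟩
        · refine ⟨j, ?_, ?_⟩
          · exact Finset.mem_insert_of_mem (Finset.mem_image_of_mem _ (Finset.mem_univ x))
          · rw [Subsingleton.elim c' 0]; exact Finset.mem_insert_self _ _
        · have hjj := huv.2 j x j' x' rfl rfl
          subst hjj
          exact ⟨j, Finset.mem_insert_of_mem (Finset.mem_image_of_mem _ (Finset.mem_univ x)),
            Finset.mem_insert_of_mem (Finset.mem_image_of_mem _ (Finset.mem_univ x'))⟩
    obtain ⟨j, hu, hv⟩ := hcopy
    rw [List.mem_flatMap]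
    refine ⟨gaps ((lj j).sort (· ≤ ·)), List.mem_map.mpr ⟨j, List.mem_finRange j, rfl⟩, ?_⟩
    rcases lt_or_gt_of_ne (fun h => huv.1 (hinj h) : f u ≠ f v) with h | h
    · have := mem_diffs_gaps _ (hsort j) (f u) ((Finset.mem_sort _).mpr hu) (f v)
        ((Finset.mem_sort _).mpr hv) h
      rw [Nat.dist_eq_sub_of_le h.le] at hk
      rwa [hk] at this
    · have := mem_diffs_gaps _ (hsort j) (f v) ((Finset.mem_sort _).mpr hv) (f u)
        ((Finset.mem_sort _).mpr hu) h
      rw [Nat.dist_eq_sub_of_le_right h.le] at hk
      rwa [hk] at this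
  obtain ⟨hn, hle'⟩ := nodup_of_cover _ hcov
  exact ⟨L, by simp [L], hL1, hn, hlen, hcov, hle'⟩

/-- If the search fails then `K_(p+2)^(m)` is not graceful. -/
theorem not_graceful_of_search (p m N : ℕ) (hN : 2 * N = m * ((p + 1) * (p + 2)))
    (hs : search N (p + 1) m 0 = false) : ¬ IsGraceful (B (p + 2) 1 m) := by
  intro hG
  obtain ⟨L, h1, h2, h3, h4, h5, h6⟩ := exists_blocks p m hG
  have hNl : (L.flatMap diffs).length = N := by omega
  rw [hNl] at h5 h6
  have := search_complete N p m L 0 [] h1 h2 (by simp) (by simpa using h3)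
    (by simpa using h5) h6
  rw [hs] at this
  exact absurd this (by decide)

end Pool.Agent.Graceful
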