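import Pool.Agent.Graceful.Search

set_option autoImplicit false

/-!
# A faster exhaustive search for perfect difference families (for kernel evaluation)
-/

namespace Pool.Agent.Graceful

/-- `true` if bit `d` of `u` is set (kernel friendly form). -/
def bit (u d : ℕ) : Bool := Nat.beq (Nat.land (Nat.shiftRight u d) 1) 1

/-- Evaluate `n`, then continue. -/
noncomputable def force (n : ℕ) (k : ℕ → Bool) : Bool :=
  Nat.rec (motive := fun _ => Bool) (k 0) (fun i _ => k (Nat.succ i)) n

/-- `f (n-1) || ... || f 0`. -/
noncomputable def anyR (f : ℕ → Bool) (n : ℕ) : Bool :=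
  Nat.rec (motive := fun _ => Bool) false (fun i ih => Bool.rec ih true (f i)) n

noncomputable def topR (u N : ℕ) : ℕ :=
  Nat.rec (motive := fun _ => ℕ) 0 (fun n ih => Bool.rec (Nat.succ n) ih (bit u (Nat.succ n))) N

/-- Distance. -/
def dst (x y : ℕ) : ℕ := Nat.add (Nat.sub x y) (Nat.sub y x)

/-- Add the mark `x` to the marks `M`: all the distances to `M` must be new. -/
noncomputable def addMark (x : ℕ) (M : List ℕ) : ℕ → (ℕ → Bool) → Bool :=
  List.rec (motive := fun _ => ℕ → (ℕ → Bool) → Bool) (fun u k => k u)
    (fun y _ ih u k => Bool.rec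
      (force (Nat.lor u (Nat.pow 2 (dst x y))) fun u' => ih u' k) false (bit u (dst x y))) M

/-- Choose `j` further marks between `last` and `z`. -/
noncomputable def ext (z : ℕ) (k : ℕ → Bool) (j : ℕ) : ℕ → List ℕ → ℕ → Bool :=
  Nat.rec (motive := fun _ => ℕ → List ℕ → ℕ → Bool) (fun _ _ u => k u)
    (fun _ ih last M u =>
      anyR (fun x => force (Nat.add (Nat.add last 1) x) fun x' =>
        addMark x' M u fun u' => ih x' (x' :: M) u') (Nat.sub (Nat.sub z 1) last)) j

/-- Search for `k` further blocks with `p` interior marks. -/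
noncomputable def searchR (N p : ℕ) (k : ℕ) : ℕ → Bool :=
  Nat.rec (motive := fun _ => ℕ → Bool) (fun _ => true)
    (fun _ ih u => force (topR u N) fun z =>
      force (Nat.lor u (Nat.pow 2 z)) fun u' => ext z ih p 0 [z, 0] u') k

theorem bit_eq (u d : ℕ) : bit u d = u.testBit d := by
  have h1 : (Nat.land (Nat.shiftRight u d) 1) = (u >>> d) &&& 1 := rfl
  have h2 : u.testBit d = (1 &&& (u >>> d) != 0) := rfl
  rw [bit, h1, h2, Nat.and_comm 1]
  have h3 : (u >>> d) &&& 1 = (u >>> d) % 2 := Nat.and_one_is_mod _
  rw [h3]
  rcases Nat.mod_two_eq_zero_or_one (u >>> d) with h | h <;> rw [h] <;> rfl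

theorem force_eq (n : ℕ) (k : ℕ → Bool) : force n k = k n := by
  cases n <;> rfl

theorem anyR_of (f : ℕ → Bool) (n i : ℕ) (hi : i < n) (hf : f i = true) : anyR f n = true := by
  induction n with
  | zero => omega
  | succ n ih =>
    show Bool.rec (anyR f n) true (f n) = true
    by_cases h : f n = true
    · rw [h]
    · have h2 : f n = false := by simpa using h
      rw [h2]
      apply ih
      rcases Nat.lt_succ_iff_lt_or_eq.mp hi with h3 | rfl
      · exact h3
      · exact absurd hf h

theorem topR_eq (u N : ℕ) : topR u N = top u N := by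
  induction N with
  | zero => rfl
  | succ N ih =>
    show Bool.rec (Nat.succ N) (topR u N) (bit u (Nat.succ N)) = top u (N + 1)
    rw [top, bit_eq, ih]
    cases h : u.testBit (Nat.succ N) with
    | false => simp
    | true => simp

theorem dst_eq (x y : ℕ) : dst x y = Nat.dist x y := rfl

/-- `u` codes the set of the members of the list. -/
def Codes (u : ℕ) (S : List ℕ) : Prop := ∀ n, u.testBit n = true ↔ n ∈ S

theorem Codes.add {u : ℕ} {S : List ℕ} (h : Codes u S) {d : ℕ} (hd : d ∉ S) :
    bit u d = false ∧ Codes (Nat.lor u (Nat.pow 2 d)) (d :: S) := by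
  have h1 : u.testBit d = false := by
    by_contra h2
    exact hd ((h d).mp (by simpa using h2))
  refine ⟨by rw [bit_eq]; exact h1, ?_⟩
  intro n
  have h3 : Nat.lor u (Nat.pow 2 d) = u ||| 2 ^ d := rfl
  rw [h3, Nat.testBit_or, Bool.or_eq_true, h n, List.mem_cons, Nat.testBit_two_pow]
  simp only [decide_eq_true_eq]
  constructor
  · rintro (h | h)
    · exact Or.inr h
    · exact Or.inl h.symm
  · rintro (h | h)
    · exact Or.inr h.symm
    · exact Or.inl h

theorem addMark_complete (x : ℕ) (M : List ℕ) : ∀ (u : ℕ) (S : List ℕ) (k : ℕ → Bool), Codes u S →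
    (M.map (dst x) ++ S).Nodup → (∀ u', Codes u' (M.map (dst x) ++ S) → k u' = true) →
    addMark x M u k = true := by
  induction M with
  | nil => intro u S k hu _ hk; exact hk u (by simpa using hu)
  | cons y M ih =>
    intro u S k hu hn hk
    show Bool.rec (force (Nat.lor u (Nat.pow 2 (dst x y))) fun u' => addMark x M u' k) false
      (bit u (dst x y)) = true
    rw [List.map_cons, List.cons_append, List.nodup_cons] at hn
    obtain ⟨h1, h2⟩ := hu.add (d := dst x y) fun h => hn.1 (List.mem_append_right _ h)
    rw [h1, force_eq]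
    have hp : (M.map (dst x) ++ dst x y :: S).Perm (dst x y :: (M.map (dst x) ++ S)) :=
      List.perm_middle
    apply ih _ (dst x y :: S) k h2
    · exact hp.nodup_iff.mpr (List.nodup_cons.mpr hn)
    · intro u' hu'
      apply hk
      intro n
      rw [hu' n, List.map_cons, List.cons_append]
      exact hp.mem_iff

/-- The differences created by adding the marks of `xs` one after the other to `M`. -/
def newD : List ℕ → List ℕ → List ℕ
  | [], _ => []
  | x :: xs, M => M.map (dst x) ++ newD xs (x :: M)

theorem ext_complete (z : ℕ) (k : ℕ → Bool) (xs : List ℕ) : ∀ (last : ℕ) (M : List ℕ) (u : ℕ)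
    (S : List ℕ), Codes u S → (last :: xs).Pairwise (· < ·) → (∀ x ∈ xs, x < z) →
    (newD xs M ++ S).Nodup → (∀ u', Codes u' (newD xs M ++ S) → k u' = true) →
    ext z k xs.length last M u = true := by
  induction xs with
  | nil => intro last M u S hu _ _ _ hk; exact hk u (by simpa [newD] using hu)
  | cons x xs ih =>
    intro last M u S hu hs hz hn hk
    show anyR (fun x => force (Nat.add (Nat.add last 1) x) fun x' =>
        addMark x' M u fun u' => ext z k xs.length x' (x' :: M) u')
        (Nat.sub (Nat.sub z 1) last) = true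
    have hlx : last < x := (List.pairwise_cons.mp hs).1 x List.mem_cons_self
    have hxz := hz x List.mem_cons_self
    apply anyR_of _ _ (x - last - 1)
    · show x - last - 1 < z - 1 - last
      omega
    · rw [force_eq]
      have e : Nat.add (Nat.add last 1) (x - last - 1) = x := by
        show last + 1 + (x - last - 1) = x
        omega
      rw [e]
      rw [newD, List.append_assoc] at hn
      have hp : (M.map (dst x) ++ (newD xs (x :: M) ++ S)).Perm
          (newD xs (x :: M) ++ (M.map (dst x) ++ S)) := by
        rw [← List.append_assoc, ← List.append_assoc]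
        exact List.perm_append_comm.append_right S
      have hn2 := hp.nodup_iff.mp hn
      apply addMark_complete x M u S _ hu (List.nodup_append.mp hn2).2.1
      intro u' hu'
      apply ih x (x :: M) u' _ hu' (List.pairwise_cons.mp hs).2
        (fun y hy => hz y (List.mem_cons_of_mem _ hy)) hn2
      intro u'' hu''
      apply hk
      intro n
      rw [hu'' n, newD, List.append_assoc]
      exact hp.mem_iff.symm

/-- The differences of the block with marks `0`, `xs`, `z`. -/
def blkD (b : List ℕ × ℕ) : List ℕ := newD b.1 [b.2, 0] ++ [b.2]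

/-- A block with `p` interior marks. -/
def IsBlk (p : ℕ) (b : List ℕ × ℕ) : Prop :=
  b.1.length = p ∧ (0 :: b.1).Pairwise (· < ·) ∧ (∀ x ∈ b.1, x < b.2) ∧ 0 < b.2

theorem newD_le (z : ℕ) (xs : List ℕ) : ∀ (M : List ℕ), (∀ y ∈ M, y ≤ z) → (∀ x ∈ xs, x < z) →
    ∀ n ∈ newD xs M, n ≤ z := by
  induction xs with
  | nil => intro M _ _ n hn; simp [newD] at hn
  | cons x xs ih =>
    intro M hM hx n hn
    rw [newD, List.mem_append, List.mem_map] at hn
    rcases hn with ⟨y, hy, rfl⟩ | hn
    · have h1 := hM y hy
      have h2 := hx x List.mem_cons_self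
      show x - y + (y - x) ≤ z
      omega
    · refine ih (x :: M) ?_ (fun y hy => hx y (List.mem_cons_of_mem _ hy)) n hn
      intro y hy
      rcases List.mem_cons.mp hy with rfl | hy
      · exact (hx y List.mem_cons_self).le
      · exact hM y hy

theorem blkD_le {p : ℕ} {b : List ℕ × ℕ} (hb : IsBlk p b) : ∀ n ∈ blkD b, n ≤ b.2 := by
  intro n hn
  rw [blkD, List.mem_append] at hn
  rcases hn with hn | hn
  · refine newD_le b.2 b.1 _ ?_ hb.2.2.1 n hn
    intro y hy
    simp only [List.mem_cons, List.not_mem_nil, or_false] at hy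
    rcases hy with rfl | rfl
    · exact le_refl _
    · exact Nat.zero_le _
  · rw [List.mem_singleton] at hn
    exact hn.le

/-- Completeness of the fast search. -/
theorem searchR_complete (N p : ℕ) : ∀ (k : ℕ) (L : List (List ℕ × ℕ)) (u : ℕ) (U : List ℕ),
    L.length = k → (∀ b ∈ L, IsBlk p b) → Codes u U → (L.flatMap blkD ++ U).Nodup →
    (∀ n, 1 ≤ n → n ≤ N → n ∈ L.flatMap blkD ++ U) → (∀ n ∈ L.flatMap blkD, n ≤ N) →
    searchR N p k u = true := by
  intro k
  induction k with
  | zero => intros; rfl
  | succ k ih =>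
    intro L u U hL hb hu hn hcov hle
    obtain ⟨b0, L0, rfl⟩ : ∃ b0 L0, L = b0 :: L0 := by
      cases L with
      | nil => simp at hL
      | cons b l => exact ⟨b, l, rfl⟩
    have hself : ∀ b : List ℕ × ℕ, b.2 ∈ blkD b := fun b =>
      List.mem_append_right _ (List.mem_singleton.mpr rfl)
    have hnot : ∀ n ∈ (b0 :: L0).flatMap blkD, u.testBit n = false := by
      intro n hn'
      by_contra h
      have h2 : n ∈ U := (hu n).mp (by simpa using h)
      exact (List.nodup_append.mp hn).2.2 n hn' n h2 rfl
    have hmem0 : b0.2 ∈ (b0 :: L0).flatMap blkD :=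
      List.mem_flatMap.mpr ⟨b0, List.mem_cons_self, hself b0⟩
    obtain ⟨ht1, ht2, ht3⟩ := top_spec u N b0.2 (hb _ List.mem_cons_self).2.2.2
      (hle _ hmem0) (hnot _ hmem0)
    have ht4 : 1 ≤ top u N := le_trans (hb _ List.mem_cons_self).2.2.2 ht1
    have ht5 : top u N ∈ (b0 :: L0).flatMap blkD := by
      rcases List.mem_append.mp (hcov _ ht4 ht2) with h | h
      · exact h
      · have := (hu _).mpr h
        rw [ht3] at this
        exact absurd this (by decide)
    obtain ⟨b, hbL, hbd⟩ := List.mem_flatMap.mp ht5
    have hbs : b.2 = top u N := by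
      apply le_antisymm
      · have hm : b.2 ∈ (b0 :: L0).flatMap blkD := List.mem_flatMap.mpr ⟨b, hbL, hself b⟩
        exact (top_spec u N b.2 (hb _ hbL).2.2.2 (hle _ hm) (hnot _ hm)).1
      · exact blkD_le (hb _ hbL) _ hbd
    have hperm : (b0 :: L0).Perm (b :: (b0 :: L0).erase b) := List.perm_cons_erase hbL
    set L' := (b0 :: L0).erase b with hL'
    have hfp : ((b0 :: L0).flatMap blkD).Perm (blkD b ++ L'.flatMap blkD) := by
      have := hperm.flatMap_right blkD
      rwa [List.flatMap_cons] at this
    have hp2 : ((b0 :: L0).flatMap blkD ++ U).Perm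
        (L'.flatMap blkD ++ (newD b.1 [b.2, 0] ++ (b.2 :: U))) := by
      refine (hfp.append_right U).trans ?_
      have e : newD b.1 [b.2, 0] ++ (b.2 :: U) = blkD b ++ U := by
        rw [blkD, List.append_assoc]; rfl
      rw [e, ← List.append_assoc]
      exact List.perm_append_comm.append_right U
    have hn2 := hp2.nodup_iff.mp hn
    have hn3 := (List.nodup_append.mp hn2).2.1
    have hn4 := (List.nodup_append.mp hn3).2.1
    obtain ⟨h1, h2⟩ := hu.add (List.nodup_cons.mp hn4).1
    show force (topR u N) (fun z =>
      force (Nat.lor u (Nat.pow 2 z)) fun u' => ext z (searchR N p k) p 0 [z, 0] u') = true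
    rw [force_eq, force_eq, topR_eq, ← hbs]
    have h3 := ext_complete b.2 (searchR N p k) b.1 0 [b.2, 0] _ _ h2 (hb b hbL).2.1
      (hb b hbL).2.2.1 hn3 ?_
    · rw [(hb b hbL).1] at h3
      exact h3
    · intro u' hu'
      exact ih L' u' _ (by rw [hL', List.length_erase_of_mem hbL, hL]; rfl)
        (fun c hc => hb c (List.mem_of_mem_erase hc)) hu' hn2
        (fun n hn1 hnN => hp2.mem_iff.mp (hcov n hn1 hnN))
        (fun n hn' => hle n (hfp.mem_iff.mpr (List.mem_append_right _ hn')))

/-! ### From labels to blocks -/

theorem newD_mem_old (xs : List ℕ) : ∀ (M : List ℕ), ∀ x ∈ xs, ∀ y ∈ M, dst x y ∈ newD xs M := by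
  induction xs with
  | nil => intro M x hx; simp at hx
  | cons a xs ih =>
    intro M x hx y hy
    rw [newD, List.mem_append]
    rcases List.mem_cons.mp hx with rfl | hx
    · left; exact List.mem_map_of_mem hy
    · right; exact ih (a :: M) x hx y (List.mem_cons_of_mem _ hy)

theorem newD_mem_new (xs : List ℕ) : ∀ (M : List ℕ), xs.Pairwise (· < ·) →
    ∀ x ∈ xs, ∀ y ∈ xs, x < y → dst y x ∈ newD xs M := by
  induction xs with
  | nil => intro M _ x hx; simp at hx
  | cons a xs ih =>
    intro M hs x hx y hy hxy
    have hp := List.pairwise_cons.mp hs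
    rw [newD, List.mem_append]
    right
    rcases List.mem_cons.mp hx with rfl | hx'
    · have hy' : y ∈ xs := by
        rcases List.mem_cons.mp hy with h | h
        · omega
        · exact h
      exact newD_mem_old xs _ y hy' x List.mem_cons_self
    · have hy' : y ∈ xs := by
        rcases List.mem_cons.mp hy with h | h
        · have := hp.1 x hx'
          omega
        · exact h
      exact ih (a :: M) hp.2 x hx' y hy' hxy

theorem newD_length (xs : List ℕ) : ∀ (M : List ℕ),
    2 * (newD xs M).length = xs.length * (2 * M.length + xs.length - 1) := by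
  induction xs with
  | nil => intro M; simp [newD]
  | cons x xs ih =>
    intro M
    rw [newD, List.length_append, List.length_map, mul_add, ih, List.length_cons, List.length_cons]
    rcases Nat.eq_zero_or_pos xs.length with h | h
    · rw [h]; simp
    · have e1 : 2 * (M.length + 1) + xs.length - 1 = 2 * M.length + xs.length + 1 := by omega
      have e2 : 2 * M.length + (xs.length + 1) - 1 = 2 * M.length + xs.length := by omega
      rw [e1, e2]
      ring

/-- A graceful `K_(p+2)^(m)` gives `m` blocks. -/
theorem exists_blks (p m : ℕ) (hG : IsGraceful (B (p + 2) 1 m)) :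
    ∃ L : List (List ℕ × ℕ), L.length = m ∧ (∀ b ∈ L, IsBlk p b) ∧
      (L.flatMap blkD).Nodup ∧ 2 * (L.flatMap blkD).length = m * ((p + 1) * (p + 2)) ∧
      (∀ n, 1 ≤ n → n ≤ (L.flatMap blkD).length → n ∈ L.flatMap blkD) ∧
      ∀ n ∈ L.flatMap blkD, n ≤ (L.flatMap blkD).length := by
  classical
  obtain ⟨f, hinj, hle, hd⟩ := hG
  let lj : Fin m → Finset ℕ := fun j =>
    insert (f (Sum.inl 0)) (Finset.univ.image fun x : Fin (p + 2 - 1) => f (Sum.inr (j, x)))
  have hlj : ∀ j, (lj j).card = p + 2 := by
    intro j
    rw [Finset.card_insert_of_notMem, Finset.card_image_of_injective]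
    · simp
    · intro x y hxy
      have := hinj hxy
      simpa using this
    · intro h
      rw [Finset.mem_image] at h
      obtain ⟨x, _, hx⟩ := h
      have := hinj hx
      simp at this
  -- each set of labels is `x0`, `x0 + xs`, `x0 + z`
  have hblk : ∀ j, ∃ b : List ℕ × ℕ, IsBlk p b ∧
      ∀ x ∈ lj j, ∀ y ∈ lj j, x < y → y - x ∈ blkD b := by
    intro j
    have hsort : ((lj j).sort (· ≤ ·)).Pairwise (· < ·) := (Finset.sortedLT_sort _).pairwise
    have hlen : ((lj j).sort (· ≤ ·)).length = p + 2 := by rw [Finset.length_sort, hlj]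
    obtain ⟨l, hl⟩ : ∃ l, l = (lj j).sort (· ≤ ·) := ⟨_, rfl⟩
    rw [← hl] at hsort hlen
    obtain ⟨x0, l1, rfl⟩ : ∃ x0 l1, l = x0 :: l1 := by
      cases l with
      | nil => simp at hlen
      | cons a l => exact ⟨a, l, rfl⟩
    have hl1 : l1 ≠ [] := by
      rintro rfl
      simp at hlen
    obtain ⟨l2, x1, rfl⟩ : ∃ l2 x1, l1 = l2 ++ [x1] :=
      ⟨l1.dropLast, l1.getLast hl1, (List.dropLast_append_getLast hl1).symm⟩
    have hp0 := List.pairwise_cons.mp hsort
    have hp1 := List.pairwise_append.mp hp0.2
    have hx01 : x0 < x1 := hp0.1 x1 (by simp)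
    have hlen2 : l2.length = p := by simpa using hlen
    refine ⟨(l2.map (· - x0), x1 - x0), ⟨?_, ?_, ?_, ?_⟩, ?_⟩
    · simpa using hlen2
    · rw [List.pairwise_cons]
      constructor
      · intro y hy
        obtain ⟨a, ha, rfl⟩ := List.mem_map.mp hy
        have := hp0.1 a (List.mem_append_left _ ha)
        show 0 < a - x0
        omega
      · rw [List.pairwise_map]
        refine hp1.1.imp_of_mem ?_
        intro a b ha hb hab
        have := hp0.1 a (List.mem_append_left _ ha)
        show a - x0 < b - x0
        omega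
    · intro y hy
      obtain ⟨a, ha, rfl⟩ := List.mem_map.mp hy
      have := hp1.2.2 a ha x1 (List.mem_singleton.mpr rfl)
      have := hp0.1 a (List.mem_append_left _ ha)
      show a - x0 < x1 - x0
      omega
    · show 0 < x1 - x0
      omega
    · intro x hx y hy hxy
      have hx' : x ∈ x0 :: (l2 ++ [x1]) := by rw [hl]; exact (Finset.mem_sort _).mpr hx
      have hy' : y ∈ x0 :: (l2 ++ [x1]) := by rw [hl]; exact (Finset.mem_sort _).mpr hy
      have hle0 : ∀ a ∈ l2 ++ [x1], x0 < a := hp0.1
      have hle1 : ∀ a ∈ l2, a < x1 := fun a ha => hp1.2.2 a ha x1 (List.mem_singleton.mpr rfl)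
      have hy1 : y ∈ l2 ++ [x1] := by
        rcases List.mem_cons.mp hy' with h | h
        · rcases List.mem_cons.mp hx' with h' | h'
          · omega
          · have := hle0 x h'; omega
        · exact h
      have e : ∀ a b : ℕ, x0 ≤ b → b < a → a - b = dst (a - x0) (b - x0) := by
        intro a b h1 h2
        show a - b = (a - x0) - (b - x0) + ((b - x0) - (a - x0))
        omega
      rw [blkD, List.mem_append]
      rcases List.mem_append.mp hy1 with hy2 | hy2
      · left
        rcases List.mem_cons.mp hx' with rfl | hx1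
        · have h4 := newD_mem_old (l2.map (· - x)) [x1 - x, 0] (y - x)
            (List.mem_map_of_mem hy2) 0 (by simp)
          have h5 : dst (y - x) 0 = y - x := by
            show y - x - 0 + (0 - (y - x)) = y - x
            omega
          rwa [h5] at h4
        · have hx2 : x ∈ l2 := by
            rcases List.mem_append.mp hx1 with h | h
            · exact h
            · rw [List.mem_singleton] at h
              have := hle1 y hy2
              omega
          have hx0 := hle0 x hx1
          rw [e y x hx0.le hxy]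
          refine newD_mem_new (l2.map (· - x0)) _ ?_ (x - x0) (List.mem_map_of_mem hx2) (y - x0)
            (List.mem_map_of_mem hy2) (by omega)
          rw [List.pairwise_map]
          refine hp1.1.imp_of_mem ?_
          intro a b ha hb hab
          have := hp0.1 a (List.mem_append_left _ ha)
          show a - x0 < b - x0
          omega
      · rw [List.mem_singleton] at hy2
        subst hy2
        rcases List.mem_cons.mp hx' with rfl | hx1
        · right; simp
        · left
          have hx2 : x ∈ l2 := by
            rcases List.mem_append.mp hx1 with h | h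
            · exact h
            · rw [List.mem_singleton] at h
              omega
          have hx0 := hle0 x hx1
          have h4 := newD_mem_old (l2.map (· - x0)) [y - x0, 0] (x - x0)
            (List.mem_map_of_mem hx2) (y - x0) (by simp)
          have h5 : dst (x - x0) (y - x0) = y - x := by
            show (x - x0) - (y - x0) + ((y - x0) - (x - x0)) = y - x
            omega
          rwa [h5] at h4
  choose bl hbl1 hbl2 using hblk
  let L : List (List ℕ × ℕ) := (List.finRange m).map bl
  have hL1 : ∀ b ∈ L, IsBlk p b := by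
    intro b hb
    obtain ⟨j, _, rfl⟩ := List.mem_map.mp hb
    exact hbl1 j
  have hlen : 2 * (L.flatMap blkD).length = m * ((p + 1) * (p + 2)) := by
    have h1 : ∀ (L : List (List ℕ × ℕ)), (∀ b ∈ L, b.1.length = p) →
        2 * (L.flatMap blkD).length = L.length * ((p + 1) * (p + 2)) := by
      intro L
      induction L with
      | nil => intro _; simp
      | cons b L ih =>
        intro hb
        rw [List.flatMap_cons, List.length_append, mul_add, ih fun c hc => hb c
          (List.mem_cons_of_mem _ hc), blkD, List.length_append, mul_add, newD_length,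
          hb b List.mem_cons_self, List.length_cons]
        simp only [List.length_cons, List.length_nil]
        rcases Nat.eq_zero_or_pos p with h | h
        · subst h; ring
        · have e1 : 2 * (0 + 1 + 1) + p - 1 = p + 3 := by omega
          rw [e1]
          ring
    rw [h1 L fun b hb => (hL1 b hb).1]
    simp [L]
  have hq : (L.flatMap blkD).length = Nat.card (B (p + 2) 1 m).edgeSet := by
    have h1 := two_edges (p + 2) 1 m
    have h2 : ((1 : ℕ) : ℝ) + ((p + 2 - 1 : ℕ) : ℝ) = p + 2 := by
      have : p + 2 - 1 = p + 1 := rfl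
      rw [this]; push_cast; ring
    have h3 : ((p + 2 - 1 : ℕ) : ℝ) = p + 1 := by
      have : p + 2 - 1 = p + 1 := rfl
      rw [this]; push_cast; ring
    rw [h2, h3] at h1
    have h4 : (2 * (Nat.card (B (p + 2) 1 m).edgeSet : ℝ)) = ((m * ((p + 1) * (p + 2)) : ℕ) : ℝ) := by
      rw [h1]; push_cast; ring
    have h5 : 2 * Nat.card (B (p + 2) 1 m).edgeSet = m * ((p + 1) * (p + 2)) := by
      exact_mod_cast h4
    omega
  have hcov : ∀ k, 1 ≤ k → k ≤ (L.flatMap blkD).length → k ∈ L.flatMap blkD := by
    intro k hk1 hk2
    rw [hq] at hk2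
    obtain ⟨u, v, huv, hk⟩ := surj_of_graceful _ f hinj hle hd k hk1 hk2
    have hcopy : ∃ j, f u ∈ lj j ∧ f v ∈ lj j := by
      rcases u with c | ⟨j, x⟩
      · rcases v with c' | ⟨j, x⟩
        · exact absurd (Subsingleton.elim c c') (fun h => huv.1 (by rw [h]))
        · refine ⟨j, ?_, ?_⟩
          · rw [Subsingleton.elim c 0]; exact Finset.mem_insert_self _ _
          · exact Finset.mem_insert_of_mem (Finset.mem_image_of_mem _ (Finset.mem_univ x))
      · rcases v with c' | ⟨j', x'⟩
        · refine ⟨j, ?_, ?_⟩
          · exact Finset.mem_insert_of_mem (Finset.mem_image_of_mem _ (Finset.mem_univ x))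
          · rw [Subsingleton.elim c' 0]; exact Finset.mem_insert_self _ _
        · have hjj := huv.2 j x j' x' rfl rfl
          subst hjj
          exact ⟨j, Finset.mem_insert_of_mem (Finset.mem_image_of_mem _ (Finset.mem_univ x)),
            Finset.mem_insert_of_mem (Finset.mem_image_of_mem _ (Finset.mem_univ x'))⟩
    obtain ⟨j, hu, hv⟩ := hcopy
    rw [List.mem_flatMap]
    refine ⟨bl j, List.mem_map.mpr ⟨j, List.mem_finRange j, rfl⟩, ?_⟩
    rcases lt_or_gt_of_ne (fun h => huv.1 (hinj h) : f u ≠ f v) with h | h
    · have := hbl2 j (f u) hu (f v) hv h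
      rw [Nat.dist_eq_sub_of_le h.le] at hk
      rwa [hk] at this
    · have := hbl2 j (f v) hv (f u) hu h
      rw [Nat.dist_eq_sub_of_le_right h.le] at hk
      rwa [hk] at this
  obtain ⟨hn, hle'⟩ := nodup_of_cover _ hcov
  exact ⟨L, by simp [L], hL1, hn, hlen, hcov, hle'⟩

/-- If the fast search fails then `K_(p+2)^(m)` is not graceful. -/
theorem not_graceful_of_searchR (p m N : ℕ) (hN : 2 * N = m * ((p + 1) * (p + 2)))
    (hs : searchR N p m 0 = false) : ¬ IsGraceful (B (p + 2) 1 m) := by
  intro hG
  obtain ⟨L, h1, h2, h3, h4, h5, h6⟩ := exists_blks p m hG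
  have hNl : (L.flatMap blkD).length = N := by omega
  rw [hNl] at h5 h6
  have := searchR_complete N p m L 0 [] h1 h2 (by intro n; simp) (by simpa using h3)
    (by simpa using h5) h6
  rw [hs] at this
  exact absurd this (by decide)

end Pool.Agent.Graceful
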